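import Mathlib
import Pool.Agent.W2helper8.ZQ.Stm

/-!
Project ZQ (helper8), `MP_aa9ae4_nt`, piece RAT: rational twists.
-/

set_option autoImplicit false

namespace Pool.Agent.W2helper80.ZQ

open Finset Filter Topology MeasureTheory Complex
open Pool.Agent.W2helper8.ZQ

noncomputable section

/-- the summable function on the integers -/
def gg (j : ℤ) : ℝ := |(j : ℝ)| ^ (-(3 / 2) : ℝ)

lemma gg_nonneg (j : ℤ) : 0 ≤ gg j := Real.rpow_nonneg (abs_nonneg _) _

lemma gg_summable : Summable gg := Real.summable_abs_int_rpow (by norm_num)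

/-- the sum of `gg` along an arithmetic progression -/
lemma gg_sum (s : Finset ℕ) (h : ℕ) (hh : 1 ≤ h) (c : ℤ) :
    ∑ n ∈ s, gg ((h : ℤ) * n - c) ≤ ∑' j, gg j := by
  have hinj : Function.Injective (fun n : ℕ => (h : ℤ) * n - c) := by
    intro a b hab
    have h1 : (h : ℤ) * a = h * b := by
      have : (h : ℤ) * a - c = h * b - c := hab
      linarith
    have h2 : (h : ℤ) ≠ 0 := by positivity
    exact_mod_cast mul_left_cancel₀ h2 h1
  have h3 : ∑ n ∈ s, gg ((h : ℤ) * n - c) = ∑ j ∈ s.image (fun n : ℕ => (h : ℤ) * n - c), gg j := by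
    rw [Finset.sum_image]
    intro a _ b _ hab
    exact hinj hab
  rw [h3]
  exact gg_summable.sum_le_tsum _ (fun j _ => gg_nonneg j)

/-- the key inequality, ordered case -/
lemma key1 {a b : ℝ} (hb : 1 ≤ b) (hab : b + 1 ≤ a) :
    1 / (Real.sqrt a * Real.sqrt b * (Real.log a - Real.log b) ^ 2) ≤
      2 * a * (a - b) ^ (-(3 / 2) : ℝ) := by
  have hb0 : 0 < b := by linarith
  have ha0 : 0 < a := by linarith
  have hd : 1 ≤ a - b := by linarith
  have hd0 : 0 < a - b := by linarith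
  have hlog : (a - b) / a ≤ Real.log a - Real.log b := by
    have h1 : Real.log (b / a) ≤ b / a - 1 := Real.log_le_sub_one_of_pos (by positivity)
    rw [Real.log_div hb0.ne' ha0.ne'] at h1
    have h2 : (a - b) / a = 1 - b / a := by field_simp
    linarith
  have hq : 0 < (a - b) / a := by positivity
  have h2 : ((a - b) / a) ^ 2 ≤ (Real.log a - Real.log b) ^ 2 := pow_le_pow_left₀ hq.le hlog 2
  have hsa : 0 < Real.sqrt a := Real.sqrt_pos.2 ha0
  have hsb : 0 < Real.sqrt b := Real.sqrt_pos.2 hb0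
  have hsd : 0 < Real.sqrt (a - b) := Real.sqrt_pos.2 hd0
  have h3 : 1 / (Real.sqrt a * Real.sqrt b * (Real.log a - Real.log b) ^ 2) ≤
      1 / (Real.sqrt a * Real.sqrt b * ((a - b) / a) ^ 2) := by
    apply one_div_le_one_div_of_le (by positivity)
    exact mul_le_mul_of_nonneg_left h2 (by positivity)
  refine h3.trans ?_
  have h4 : (a - b) ^ (-(3 / 2) : ℝ) = 1 / ((a - b) * Real.sqrt (a - b)) := by
    rw [Real.rpow_neg hd0.le, one_div]
    congr 1
    rw [show (3 / 2 : ℝ) = 1 + 1 / 2 by norm_num, Real.rpow_add hd0, Real.rpow_one, Real.sqrt_eq_rpow]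
  rw [h4]
  have h5 : Real.sqrt a ≤ 2 * (Real.sqrt (a - b) * Real.sqrt b) := by
    have h6 : a ≤ 4 * ((a - b) * b) := by nlinarith [mul_nonneg (sub_nonneg.2 hd) (sub_nonneg.2 hb)]
    calc Real.sqrt a ≤ Real.sqrt (4 * ((a - b) * b)) := Real.sqrt_le_sqrt h6
      _ = 2 * (Real.sqrt (a - b) * Real.sqrt b) := by
        rw [Real.sqrt_mul (by norm_num), Real.sqrt_mul hd0.le,
          show (4 : ℝ) = 2 ^ 2 by norm_num, Real.sqrt_sq (by norm_num)]
  have h7 : 1 / (Real.sqrt a * Real.sqrt b * ((a - b) / a) ^ 2) =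
      a * Real.sqrt a / (Real.sqrt b * (a - b) ^ 2) := by
    have h8 : a = Real.sqrt a * Real.sqrt a := (Real.mul_self_sqrt ha0.le).symm
    field_simp
    nlinarith [Real.mul_self_sqrt ha0.le]
  rw [h7]
  have h9 : 2 * a * (1 / ((a - b) * Real.sqrt (a - b))) =
      a * (2 * (Real.sqrt (a - b) * Real.sqrt b)) / (Real.sqrt b * (a - b) ^ 2) := by
    have h10 : Real.sqrt (a - b) * Real.sqrt (a - b) = a - b := Real.mul_self_sqrt hd0.le
    rw [mul_one_div, div_eq_div_iff (by positivity) (by positivity)]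
    calc 2 * a * (Real.sqrt b * (a - b) ^ 2) = 2 * a * Real.sqrt b * (a - b) * (a - b) := by ring
      _ = 2 * a * Real.sqrt b * (a - b) * (Real.sqrt (a - b) * Real.sqrt (a - b)) := by rw [h10]
      _ = _ := by ring
  rw [h9]
  apply div_le_div_of_nonneg_right _ (by positivity)
  exact mul_le_mul_of_nonneg_left h5 ha0.le

/-- the key inequality for distinct positive integers -/
lemma key2 {a b M : ℕ} (ha : 1 ≤ a) (hb : 1 ≤ b) (haM : a ≤ M) (hbM : b ≤ M) (hab : a ≠ b) :
    1 / (Real.sqrt a * Real.sqrt b * (Real.log a - Real.log b) ^ 2) ≤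
      2 * M * gg ((a : ℤ) - b) := by
  unfold gg
  rcases lt_or_gt_of_ne hab with h | h
  · have h1 := key1 (a := (b : ℝ)) (b := (a : ℝ)) (by exact_mod_cast ha) (by exact_mod_cast h)
    have h2 : |(((a : ℤ) - b : ℤ) : ℝ)| = (b : ℝ) - a := by
      push_cast
      rw [abs_of_neg (by
        have : (a : ℝ) < b := by exact_mod_cast h
        linarith)]
      ring
    rw [h2]
    have h3 : Real.sqrt a * Real.sqrt b * (Real.log a - Real.log b) ^ 2 =
        Real.sqrt b * Real.sqrt a * (Real.log b - Real.log a) ^ 2 := by ring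
    rw [h3]
    refine h1.trans ?_
    have h4 : (b : ℝ) ≤ M := by exact_mod_cast hbM
    have h5 : (0 : ℝ) ≤ ((b : ℝ) - a) ^ (-(3 / 2) : ℝ) := Real.rpow_nonneg (by
        have : (a : ℝ) < b := by exact_mod_cast h
        linarith) _
    nlinarith [mul_le_mul_of_nonneg_right h4 h5]
  · have h1 := key1 (a := (a : ℝ)) (b := (b : ℝ)) (by exact_mod_cast hb) (by exact_mod_cast h)
    have h2 : |(((a : ℤ) - b : ℤ) : ℝ)| = (a : ℝ) - b := by
      push_cast
      rw [abs_of_pos (by
        have : (b : ℝ) < a := by exact_mod_cast h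
        linarith)]
    rw [h2]
    refine h1.trans ?_
    have h4 : (a : ℝ) ≤ M := by exact_mod_cast haM
    have h5 : (0 : ℝ) ≤ ((a : ℝ) - b) ^ (-(3 / 2) : ℝ) := Real.rpow_nonneg (by
        have : (b : ℝ) < a := by exact_mod_cast h
        linarith) _
    nlinarith [mul_le_mul_of_nonneg_right h4 h5]

/-- the diagonal -/
lemma diag_sum (h k N : ℕ) (hk : 1 ≤ k) (hkh : k ≤ h) (hco : Nat.Coprime h k) (f : ℕ → ℕ → ℂ) :
    ∑ m ∈ Icc 1 N, ∑ n ∈ Icc 1 N, (if h * n = k * m then f m n else 0) =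
      ∑ g ∈ Icc 1 (N / h), f (h * g) (k * g) := by
  have hh : 1 ≤ h := hk.trans hkh
  rw [← Finset.sum_product', ← Finset.sum_filter]
  have himg : ((Icc 1 N ×ˢ Icc 1 N).filter fun p : ℕ × ℕ => h * p.2 = k * p.1) =
      (Icc 1 (N / h)).image (fun g => (h * g, k * g)) := by
    ext ⟨m, n⟩
    simp only [Finset.mem_filter, Finset.mem_product, Finset.mem_Icc, Finset.mem_image, Prod.mk.injEq]
    constructor
    · rintro ⟨⟨⟨hm1, hm2⟩, hn1, hn2⟩, he⟩
      have hdvd : h ∣ m := by
        have h1 : h ∣ k * m := ⟨n, he.symm⟩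
        exact hco.dvd_of_dvd_mul_left h1
      obtain ⟨g, rfl⟩ := hdvd
      refine ⟨g, ⟨?_, ?_⟩, rfl, ?_⟩
      · rcases Nat.eq_zero_or_pos g with h0 | h0
        · subst h0; omega
        · exact h0
      · rw [Nat.le_div_iff_mul_le (by omega)]
        nlinarith
      · have h2 : h * n = h * (k * g) := by rw [he]; ring
        exact (Nat.eq_of_mul_eq_mul_left (by omega) h2).symm
    · rintro ⟨g, ⟨hg1, hg2⟩, rfl, rfl⟩
      rw [Nat.le_div_iff_mul_le (by omega)] at hg2
      refine ⟨⟨⟨?_, ?_⟩, ?_, ?_⟩, by ring⟩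
      · nlinarith
      · nlinarith
      · nlinarith
      · nlinarith
  rw [himg, Finset.sum_image]
  intro a _ b _ hab
  have h1 : h * a = h * b := (Prod.mk.inj hab).1
  exact Nat.eq_of_mul_eq_mul_left (by omega) h1

/-- the harmonic sum -/
lemma harm (h : ℕ) (hh : 1 ≤ h) (T : ℝ) (hT : 2 ≤ T) :
    |(∑ g ∈ Icc 1 (Ns T / h), (1 / (g : ℝ))) - Real.log T| ≤ 1 + Real.log 5 + Real.log h := by
  set q := Ns T / h with hq
  have hT0 : 0 < T := by linarith
  have hh0 : (0 : ℝ) < h := by exact_mod_cast hh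
  have hN1 : 4 * T ≤ (Ns T : ℝ) := Nat.le_ceil _
  have hN2 : (Ns T : ℝ) ≤ 5 * T := by
    have := Nat.ceil_lt_add_one (show 0 ≤ 4 * T by linarith)
    unfold Ns
    linarith
  have hN0 : (0 : ℝ) < Ns T := by linarith
  have hsum : (∑ g ∈ Icc 1 q, (1 / (g : ℝ))) = (harmonic q : ℝ) := by
    rw [harmonic_eq_sum_Icc]
    push_cast
    exact Finset.sum_congr rfl fun i _ => by rw [one_div]
  rw [hsum]
  have hlogh : 0 ≤ Real.log h := Real.log_nonneg (by exact_mod_cast hh)
  have hlog5 : 0 ≤ Real.log 5 := Real.log_nonneg (by norm_num)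
  have hup : (harmonic q : ℝ) ≤ 1 + Real.log 5 + Real.log T := by
    have h1 := harmonic_le_one_add_log q
    have h2 : Real.log q ≤ Real.log 5 + Real.log T := by
      rw [← Real.log_mul (by norm_num) hT0.ne']
      rcases Nat.eq_zero_or_pos q with h0 | h0
      · rw [h0]
        simp only [Nat.cast_zero, Real.log_zero]
        exact Real.log_nonneg (by linarith)
      · apply Real.log_le_log (by exact_mod_cast h0)
        have h3 : (q : ℝ) ≤ Ns T := by
          exact_mod_cast Nat.div_le_self _ _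
        linarith
    linarith
  have hlo : Real.log T - Real.log h ≤ (harmonic q : ℝ) := by
    have h1 := log_add_one_le_harmonic q
    have h2 : Real.log T - Real.log h ≤ Real.log ((q : ℝ) + 1) := by
      rw [← Real.log_div hT0.ne' hh0.ne']
      apply Real.log_le_log (by positivity)
      rw [div_le_iff₀ hh0]
      have h3 : Ns T < (q + 1) * h := by
        rw [hq, mul_comm]
        exact Nat.lt_mul_div_succ _ (by omega)
      have h4 : (Ns T : ℝ) < ((q : ℝ) + 1) * h := by exact_mod_cast h3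
      linarith
    push_cast at h1
    linarith
  rw [abs_le]
  constructor <;> linarith

theorem p_rat : S_RAT := by
  intro C h k hC hk hkh hco
  have hh : 1 ≤ h := hk.trans hkh
  have hh0 : (0 : ℝ) < h := by exact_mod_cast hh
  have hk0 : (0 : ℝ) < k := by exact_mod_cast hk
  have hh1 : (1 : ℝ) ≤ h := by exact_mod_cast hh
  have hk1 : (1 : ℝ) ≤ k := by exact_mod_cast hk
  have hsh : 0 < Real.sqrt h := Real.sqrt_pos.2 hh0
  have hsk : 0 < Real.sqrt k := Real.sqrt_pos.2 hk0
  set S : ℝ := ∑' j, gg j with hS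
  have hS0 : 0 ≤ S := tsum_nonneg gg_nonneg
  have hlogh : 0 ≤ Real.log h := Real.log_nonneg hh1
  have hlog5 : 0 ≤ Real.log 5 := Real.log_nonneg (by norm_num)
  refine ⟨5 / 2 * (1 + Real.log 5 + Real.log h) + Real.sqrt h * Real.sqrt k * C * (2 * h) * S * 25,
    by positivity, ?_⟩
  intro T κ w hT hw
  have hT0 : 0 < T := by linarith
  set N := Ns T with hN
  have hN1 : 4 * T ≤ (N : ℝ) := Nat.le_ceil _
  have hN2 : (N : ℝ) ≤ 5 * T := by
    have := Nat.ceil_lt_add_one (show 0 ≤ 4 * T by linarith)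
    rw [hN]
    unfold Ns
    linarith
  -- bounds for κ
  have hκ0 : 0 ≤ κ := by
    have h1 : 0 ≤ ∫ t in (T / 2)..(3 * T), w t :=
      intervalIntegral.integral_nonneg (by linarith) fun t _ => hw.nn t
    rw [hw.mass] at h1
    exact nonneg_of_mul_nonneg_left h1 hT0
  have hκ1 : κ ≤ 5 / 2 := by
    have h1 : ∫ t in (T / 2)..(3 * T), w t ≤ ∫ t in (T / 2)..(3 * T), (1 : ℝ) :=
      intervalIntegral.integral_mono_on (by linarith) (hw.cont.intervalIntegrable _ _)
        (continuous_const.intervalIntegrable _ _) fun t _ => hw.le1 t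
    rw [hw.mass, intervalIntegral.integral_const, smul_eq_mul, mul_one] at h1
    have h2 : κ * T ≤ 5 / 2 * T := by linarith
    exact le_of_mul_le_mul_right h2 hT0
  -- the summands
  set x : ℝ := (h : ℝ) / k with hx
  have hlogx : Real.log x = Real.log h - Real.log k := Real.log_div hh0.ne' hk0.ne'
  set F : ℕ → ℕ → ℂ := fun m n => ((1 / (Real.sqrt m * Real.sqrt n) : ℝ) : ℂ) *
    ∫ t in (T / 2)..(3 * T), (w t : ℂ) * e ((Real.log x + Real.log n - Real.log m) * t) with hF
  have hDS : DS w T (Real.log x) = ∑ m ∈ Icc 1 N, ∑ n ∈ Icc 1 N, F m n := rfl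
  have hsplit : DS w T (Real.log x) = ∑ m ∈ Icc 1 N, ∑ n ∈ Icc 1 N, (if h * n = k * m then F m n else 0) +
      ∑ m ∈ Icc 1 N, ∑ n ∈ Icc 1 N, (if h * n = k * m then 0 else F m n) := by
    rw [hDS, ← Finset.sum_add_distrib]
    refine Finset.sum_congr rfl fun m _ => ?_
    rw [← Finset.sum_add_distrib]
    refine Finset.sum_congr rfl fun n _ => ?_
    split_ifs <;> simp
  -- the diagonal
  have hdiag : ∑ m ∈ Icc 1 N, ∑ n ∈ Icc 1 N, (if h * n = k * m then F m n else 0) =
      (((κ * T) / Real.sqrt (h * k) * ∑ g ∈ Icc 1 (N / h), (1 / (g : ℝ)) : ℝ) : ℂ) := by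
    rw [diag_sum h k N hk hkh hco, Finset.mul_sum, Complex.ofReal_sum]
    refine Finset.sum_congr rfl fun g hg => ?_
    have hg1 : 1 ≤ g := (Finset.mem_Icc.1 hg).1
    have hg0 : (0 : ℝ) < g := by exact_mod_cast hg1
    simp only [hF]
    have hl : Real.log x + Real.log ((k * g : ℕ) : ℝ) - Real.log ((h * g : ℕ) : ℝ) = 0 := by
      push_cast
      rw [hlogx, Real.log_mul hk0.ne' hg0.ne', Real.log_mul hh0.ne' hg0.ne']
      ring
    have hI : (∫ t in (T / 2)..(3 * T), (w t : ℂ) *
        e ((Real.log x + Real.log ((k * g : ℕ) : ℝ) - Real.log ((h * g : ℕ) : ℝ)) * t)) = ((κ * T : ℝ) : ℂ) := by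
      rw [hl, ← hw.mass]
      simp only [zero_mul, e_zero, mul_one]
      exact intervalIntegral.integral_ofReal
    rw [hI, ← Complex.ofReal_mul]
    congr 1
    push_cast
    rw [Real.sqrt_mul hh0.le, Real.sqrt_mul hk0.le, Real.sqrt_mul hh0.le]
    have h1 : Real.sqrt g * Real.sqrt g = g := Real.mul_self_sqrt hg0.le
    have hsg : 0 < Real.sqrt g := Real.sqrt_pos.2 hg0
    rw [show Real.sqrt h * Real.sqrt g * (Real.sqrt k * Real.sqrt g) =
      Real.sqrt h * Real.sqrt k * (Real.sqrt g * Real.sqrt g) by ring, h1]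
    field_simp
  have hdiagE : ‖(((κ * T) / Real.sqrt (h * k) * ∑ g ∈ Icc 1 (N / h), (1 / (g : ℝ)) : ℝ) : ℂ) -
      ((κ * (T * Real.log T) / Real.sqrt (h * k) : ℝ) : ℂ)‖ ≤
      5 / 2 * (1 + Real.log 5 + Real.log h) * T := by
    rw [← Complex.ofReal_sub, Complex.norm_real, Real.norm_eq_abs]
    have hs1 : 1 ≤ Real.sqrt (h * k) := by
      rw [Real.one_le_sqrt]
      nlinarith
    have h1 : κ * T / Real.sqrt (h * k) * ∑ g ∈ Icc 1 (N / h), (1 / (g : ℝ)) -
        κ * (T * Real.log T) / Real.sqrt (h * k) =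
        κ * T / Real.sqrt (h * k) * ((∑ g ∈ Icc 1 (N / h), (1 / (g : ℝ))) - Real.log T) := by ring
    rw [h1, abs_mul]
    have h2 : |κ * T / Real.sqrt (h * k)| ≤ 5 / 2 * T := by
      rw [abs_of_nonneg (by positivity)]
      calc κ * T / Real.sqrt (h * k) ≤ κ * T := div_le_self (by positivity) hs1
        _ ≤ 5 / 2 * T := mul_le_mul_of_nonneg_right hκ1 hT0.le
    have h3 := harm h hh T hT
    calc _ ≤ (5 / 2 * T) * (1 + Real.log 5 + Real.log h) :=
          mul_le_mul h2 h3 (abs_nonneg _) (by positivity)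
      _ = _ := by ring
  -- off the diagonal
  have hoff : ‖∑ m ∈ Icc 1 N, ∑ n ∈ Icc 1 N, (if h * n = k * m then 0 else F m n)‖ ≤
      Real.sqrt h * Real.sqrt k * C * (2 * h) * S * 25 * T := by
    have hterm : ∀ m ∈ Icc 1 N, ∀ n ∈ Icc 1 N, ‖(if h * n = k * m then 0 else F m n)‖ ≤
        Real.sqrt h * Real.sqrt k * (C / T) * (2 * (h * N)) * gg ((h : ℤ) * n - (k * m : ℕ)) := by
      intro m hm n hn
      have hm1 := (Finset.mem_Icc.1 hm).1
      have hm2 := (Finset.mem_Icc.1 hm).2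
      have hn1 := (Finset.mem_Icc.1 hn).1
      have hn2 := (Finset.mem_Icc.1 hn).2
      have hm0 : (0 : ℝ) < m := by exact_mod_cast hm1
      have hn0 : (0 : ℝ) < n := by exact_mod_cast hn1
      split_ifs with he
      · rw [norm_zero]
        have := gg_nonneg ((h : ℤ) * n - (k * m : ℕ))
        positivity
      · simp only [hF]
        rw [norm_mul, Complex.norm_real, Real.norm_eq_abs,
          abs_of_nonneg (show (0 : ℝ) ≤ 1 / (Real.sqrt m * Real.sqrt n) by positivity)]
        have hl : Real.log x + Real.log n - Real.log m =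
            Real.log ((h * n : ℕ) : ℝ) - Real.log ((k * m : ℕ) : ℝ) := by
          push_cast
          rw [hlogx, Real.log_mul hh0.ne' hn0.ne', Real.log_mul hk0.ne' hm0.ne']
          ring
        have hl0 : Real.log ((h * n : ℕ) : ℝ) - Real.log ((k * m : ℕ) : ℝ) ≠ 0 := by
          intro h0
          have h1 : Real.log ((h * n : ℕ) : ℝ) = Real.log ((k * m : ℕ) : ℝ) := by linarith
          have h2 : ((h * n : ℕ) : ℝ) = ((k * m : ℕ) : ℝ) :=
            Real.log_injOn_pos (Set.mem_Ioi.2 (by push_cast; positivity))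
              (Set.mem_Ioi.2 (by push_cast; positivity)) h1
          exact he (by exact_mod_cast h2)
        rw [hl]
        have hI := hw.dec _ hl0
        have hkey := key2 (a := h * n) (b := k * m) (M := h * N) (by nlinarith) (by nlinarith)
          (by nlinarith) (by nlinarith) he
        set l := Real.log ((h * n : ℕ) : ℝ) - Real.log ((k * m : ℕ) : ℝ) with hldef
        have hl2 : 0 < l ^ 2 := by positivity
        have hsm : 0 < Real.sqrt m := Real.sqrt_pos.2 hm0
        have hsn : 0 < Real.sqrt n := Real.sqrt_pos.2 hn0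
        have hcast : (((h * n : ℕ) : ℤ) - ((k * m : ℕ) : ℤ)) = (h : ℤ) * n - ((k * m : ℕ) : ℤ) := by
          push_cast; ring
        rw [hcast] at hkey
        have h5 : Real.sqrt ((h * n : ℕ) : ℝ) * Real.sqrt ((k * m : ℕ) : ℝ) =
            Real.sqrt h * Real.sqrt k * (Real.sqrt m * Real.sqrt n) := by
          push_cast
          rw [Real.sqrt_mul hh0.le, Real.sqrt_mul hk0.le]
          ring
        rw [h5] at hkey
        calc 1 / (Real.sqrt m * Real.sqrt n) * ‖∫ t in (T / 2)..(3 * T), (w t : ℂ) * e (l * t)‖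
            ≤ 1 / (Real.sqrt m * Real.sqrt n) * (C / (T * l ^ 2)) :=
              mul_le_mul_of_nonneg_left hI (by positivity)
          _ = Real.sqrt h * Real.sqrt k * (C / T) *
              (1 / (Real.sqrt h * Real.sqrt k * (Real.sqrt m * Real.sqrt n) * l ^ 2)) := by
              field_simp
          _ ≤ Real.sqrt h * Real.sqrt k * (C / T) *
              (2 * ((h * N : ℕ) : ℝ) * gg ((h : ℤ) * n - ((k * m : ℕ) : ℤ))) :=
              mul_le_mul_of_nonneg_left hkey (by positivity)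
          _ = _ := by push_cast; ring
    calc ‖∑ m ∈ Icc 1 N, ∑ n ∈ Icc 1 N, (if h * n = k * m then 0 else F m n)‖
        ≤ ∑ m ∈ Icc 1 N, ∑ n ∈ Icc 1 N, ‖(if h * n = k * m then 0 else F m n)‖ := by
          refine (norm_sum_le _ _).trans (Finset.sum_le_sum fun m _ => norm_sum_le _ _)
      _ ≤ ∑ m ∈ Icc 1 N, ∑ n ∈ Icc 1 N,
          Real.sqrt h * Real.sqrt k * (C / T) * (2 * (h * N)) * gg ((h : ℤ) * n - (k * m : ℕ)) :=
          Finset.sum_le_sum fun m hm => Finset.sum_le_sum fun n hn => hterm m hm n hn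
      _ ≤ ∑ m ∈ Icc 1 N, Real.sqrt h * Real.sqrt k * (C / T) * (2 * (h * N)) * S := by
          refine Finset.sum_le_sum fun m _ => ?_
          rw [← Finset.mul_sum]
          exact mul_le_mul_of_nonneg_left (gg_sum _ h hh _) (by positivity)
      _ = Real.sqrt h * Real.sqrt k * C * (2 * h) * S * ((N : ℝ) * N / T) := by
          rw [Finset.sum_const, Nat.card_Icc, nsmul_eq_mul]
          rw [Nat.add_sub_cancel]
          ring
      _ ≤ Real.sqrt h * Real.sqrt k * C * (2 * h) * S * (25 * T) := by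
          apply mul_le_mul_of_nonneg_left _ (by positivity)
          rw [div_le_iff₀ hT0]
          nlinarith
      _ = _ := by ring
  rw [hsplit, hdiag]
  calc _ = ‖((((κ * T) / Real.sqrt (h * k) * ∑ g ∈ Icc 1 (N / h), (1 / (g : ℝ)) : ℝ) : ℂ) -
        ((κ * (T * Real.log T) / Real.sqrt (h * k) : ℝ) : ℂ)) +
        ∑ m ∈ Icc 1 N, ∑ n ∈ Icc 1 N, (if h * n = k * m then 0 else F m n)‖ := by
        congr 1; ring
    _ ≤ _ := norm_add_le _ _
    _ ≤ 5 / 2 * (1 + Real.log 5 + Real.log h) * T +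
        Real.sqrt h * Real.sqrt k * C * (2 * h) * S * 25 * T := add_le_add hdiagE hoff
    _ = _ := by ring

end

end Pool.Agent.W2helper80.ZQ
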